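import Mathlib

set_option autoImplicit false

namespace Pool.Agent.Results.MP_1231ed_gt.SquareRoots

/-- The Euclidean product metric on `A × A`. -/
noncomputable def edist2 {A : Type} [MetricSpace A] (p q : A × A) : ℝ :=
  Real.sqrt (dist p.1 q.1 ^ 2 + dist p.2 q.2 ^ 2)

/-- the rational points of the line -/
def SA : Set ℝ := Set.range (fun q : ℚ => (q : ℝ))

/-- the rational multiples of `√2` -/
def SB : Set ℝ := Set.range (fun q : ℚ => Real.sqrt 2 * (q : ℝ))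

theorem s2 : Real.sqrt 2 * Real.sqrt 2 = 2 := Real.mul_self_sqrt (by norm_num)

theorem toB (x y : ℝ) (hx : x ∈ SA) (hy : y ∈ SA) : (x + y) / Real.sqrt 2 ∈ SB := by
  obtain ⟨a, rfl⟩ := hx
  obtain ⟨b, rfl⟩ := hy
  refine ⟨(a + b) / 2, ?_⟩
  have h := s2
  have h0 : Real.sqrt 2 ≠ 0 := by positivity
  rw [eq_div_iff h0]
  push_cast
  linear_combination ((a + b) / 2 : ℝ) * h

theorem toB' (x y : ℝ) (hx : x ∈ SA) (hy : y ∈ SA) : (x - y) / Real.sqrt 2 ∈ SB := by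
  have : -y ∈ SA := by
    obtain ⟨b, rfl⟩ := hy
    exact ⟨-b, by push_cast; ring⟩
  simpa [sub_eq_add_neg] using toB x (-y) hx this

theorem toA (x y : ℝ) (hx : x ∈ SB) (hy : y ∈ SB) : (x + y) / Real.sqrt 2 ∈ SA := by
  obtain ⟨a, rfl⟩ := hx
  obtain ⟨b, rfl⟩ := hy
  refine ⟨a + b, ?_⟩
  have h0 : Real.sqrt 2 ≠ 0 := by positivity
  rw [eq_div_iff h0]
  push_cast
  ring

theorem toA' (x y : ℝ) (hx : x ∈ SB) (hy : y ∈ SB) : (x - y) / Real.sqrt 2 ∈ SA := by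
  have : -y ∈ SB := by
    obtain ⟨b, rfl⟩ := hy
    exact ⟨-b, by push_cast; ring⟩
  simpa [sub_eq_add_neg] using toA x (-y) hx this

/-- There are metric spaces `A`, `B` (subsets of the real line) that are not isometric although
their squares with the Euclidean product metric are isometric. -/
theorem result : ∃ (A B : Type) (_ : MetricSpace A) (_ : MetricSpace B),
    (∃ φ : (A × A) ≃ (B × B), ∀ p q, edist2 (φ p) (φ q) = edist2 p q) ∧
      ¬ ∃ ψ : A ≃ B, ∀ x y, dist (ψ x) (ψ y) = dist x y := by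
  have h0 : Real.sqrt 2 ≠ 0 := by positivity
  have h := s2
  refine ⟨SA, SB, inferInstance, inferInstance, ⟨⟨fun p => (⟨_, toB' p.1 p.2 p.1.2 p.2.2⟩,
    ⟨_, toB p.1 p.2 p.1.2 p.2.2⟩), fun p => (⟨_, toA p.1 p.2 p.1.2 p.2.2⟩,
    ⟨_, toA' p.2 p.1 p.2.2 p.1.2⟩), ?_, ?_⟩, ?_⟩, ?_⟩
  · rintro ⟨⟨x, hx⟩, ⟨y, hy⟩⟩
    have e1 : ((x - y) / Real.sqrt 2 + (x + y) / Real.sqrt 2) / Real.sqrt 2 = x := by
      field_simp
      linear_combination (-x) * h
    have e2 : ((x + y) / Real.sqrt 2 - (x - y) / Real.sqrt 2) / Real.sqrt 2 = y := by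
      field_simp
      linear_combination (-y) * h
    simp only [Prod.mk.injEq, Subtype.mk.injEq]
    exact ⟨e1, e2⟩
  · rintro ⟨⟨x, hx⟩, ⟨y, hy⟩⟩
    have e1 : ((x + y) / Real.sqrt 2 - (y - x) / Real.sqrt 2) / Real.sqrt 2 = x := by
      field_simp
      linear_combination (-x) * h
    have e2 : ((x + y) / Real.sqrt 2 + (y - x) / Real.sqrt 2) / Real.sqrt 2 = y := by
      field_simp
      linear_combination (-y) * h
    simp only [Prod.mk.injEq, Subtype.mk.injEq]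
    exact ⟨e1, e2⟩
  · rintro ⟨⟨x, hx⟩, ⟨y, hy⟩⟩ ⟨⟨x', hx'⟩, ⟨y', hy'⟩⟩
    simp only [edist2, Equiv.coe_fn_mk, Subtype.dist_eq, Real.dist_eq, sq_abs]
    congr 1
    field_simp
    linear_combination (-((x - x')^2 + (y - y')^2)) * h
  · rintro ⟨ψ, hψ⟩
    have h1 := hψ ⟨0, 0, by simp⟩ ⟨1, 1, by simp⟩
    obtain ⟨a, ha⟩ := (ψ ⟨0, 0, by simp⟩).2
    obtain ⟨b, hb⟩ := (ψ ⟨1, 1, by simp⟩).2
    rw [Subtype.dist_eq, Subtype.dist_eq, ← ha, ← hb, Real.dist_eq, Real.dist_eq] at h1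
    simp only [zero_sub, abs_neg, abs_one] at h1
    have h2 : 2 * ((a:ℝ) - b)^2 = 1 := by
      have h3 : (Real.sqrt 2 * (a:ℝ) - Real.sqrt 2 * b)^2 = 1 := by
        rw [← sq_abs, h1]; norm_num
      linear_combination h3 - ((a:ℝ) - b)^2 * h
    have h4 : (2 : ℚ) * (a - b)^2 = 1 := by exact_mod_cast h2
    have h5 : IsSquare (2 : ℚ) := by
      have hab : a - b ≠ 0 := by
        intro hz
        rw [hz] at h4
        norm_num at h4
      refine ⟨(a - b)⁻¹, ?_⟩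
      field_simp
      linarith
    have h6 : Irrational (Real.sqrt 2) := irrational_sqrt_two
    obtain ⟨c, hc⟩ := h5
    apply h6
    refine ⟨|c|, ?_⟩
    have : (2:ℝ) = (c:ℝ) * c := by exact_mod_cast hc
    rw [this, Real.sqrt_mul_self_eq_abs]
    push_cast
    rfl

end Pool.Agent.Results.MP_1231ed_gt.SquareRoots
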